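import Pool.Agent.helper16.CVL.Spec

/-!
# Block CVL, row BLL: Green functions, lower bound (helper55)
-/

set_option autoImplicit false

open Complex Metric Set Filter Topology MeasureTheory
open HY (UD T S hd UN RM)
open RT (UC TD rm lf cr pd bl gr hdf Lf UP)

noncomputable section

namespace CVL

theorem BLL_mem {u : ℂ} (h : u ∈ UD) : ‖u‖ < 1 := by
  have h1 : u ∈ ball (0 : ℂ) 1 := h
  simpa using h1

theorem BLL_mem' {u : ℂ} (h : ‖u‖ < 1) : u ∈ UD := by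
  show u ∈ ball (0 : ℂ) 1
  simpa using h

theorem BLL_den {a b : ℂ} (ha : a ∈ UD) (hb : b ∈ UD) : 1 - (starRingEnd ℂ) a * b ≠ 0 := by
  intro h
  have h1 : (starRingEnd ℂ) a * b = 1 := (sub_eq_zero.1 h).symm
  have h2 : ‖(starRingEnd ℂ) a * b‖ = 1 := by rw [h1, norm_one]
  rw [norm_mul, RCLike.norm_conj] at h2
  have h3 := BLL_mem ha
  have h4 := BLL_mem hb
  nlinarith [norm_nonneg a, norm_nonneg b]

theorem BLL_rot {v : ℂ} (hv : ‖v‖ = 1) (a b : ℂ) : ‖T (v * a) (v * b)‖ = ‖T a b‖ := by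
  have h1 : (starRingEnd ℂ) v * v = 1 := by
    rw [mul_comm, Complex.mul_conj, Complex.normSq_eq_norm_sq, hv]
    norm_num
  have h2 : T (v * a) (v * b) = v * T a b := by
    unfold HY.T
    have h3 : (starRingEnd ℂ) (v * a) * (v * b) = (starRingEnd ℂ) a * b := by
      rw [map_mul]
      calc (starRingEnd ℂ) v * (starRingEnd ℂ) a * (v * b) = ((starRingEnd ℂ) v * v) * ((starRingEnd ℂ) a * b) := by ring
        _ = (starRingEnd ℂ) a * b := by rw [h1, one_mul]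
    rw [h3, ← mul_sub, mul_div_assoc]
  rw [h2, norm_mul, hv, one_mul]

theorem BLL_ne {a b : ℂ} (ha : a ∈ UD) (hb : b ∈ UD) (h : a ≠ b) : T a b ≠ 0 := by
  unfold HY.T
  exact div_ne_zero (sub_ne_zero.2 h.symm) (BLL_den ha hb)

theorem BLL_lim {ι : Type} {l : Filter ι} {f g : ι → ℂ} {a b : ℂ} (ha : a ∈ UD) (hb : b ∈ UD) (h : a ≠ b)
    (hf : Tendsto f l (𝓝 a)) (hg : Tendsto g l (𝓝 b)) :
    Tendsto (fun i => Real.log (1 / ‖T (f i) (g i)‖)) l (𝓝 (Real.log (1 / ‖T a b‖))) := by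
  have h1 : Tendsto (fun i => T (f i) (g i)) l (𝓝 (T a b)) := by
    unfold HY.T
    refine Tendsto.div (hg.sub hf) ?_ (BLL_den ha hb)
    exact tendsto_const_nhds.sub (((Complex.continuous_conj.tendsto a).comp hf).mul hg)
  have h2 : ‖T a b‖ ≠ 0 := norm_ne_zero_iff.2 (BLL_ne ha hb h)
  exact ((tendsto_const_nhds.div h1.norm h2)).log (by
    rw [one_div]
    exact inv_ne_zero h2)

theorem BLL_evne {ι : Type} {l : Filter ι} {f g : ι → ℂ} {a b : ℂ} (hf : Tendsto f l (𝓝 a)) (hg : Tendsto g l (𝓝 b))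
    (h : a ≠ b) : ∀ᶠ i in l, f i ≠ g i :=
  ((hf.sub hg).eventually_ne (sub_ne_zero.2 h)).mono fun _ hi h' => hi (sub_eq_zero.2 h')

theorem BLL (hFRB : FRB_stmt) (hLMP : LMP_stmt) (hTDL : TDL_stmt) (hQNU : RT.QNU_stmt) (hQLC : RT.QLC_stmt)
    (hQFN : RT.QFN_stmt) : BLL_stmt := by
  intro s U W x χ hF ζ ζ' ζ₀ hζ₀ ζ₀' hζ₀' hne hζ hζ' ε hε
  obtain ⟨hTD, _, v, hv, hrm⟩ := hTDL s U W x χ hF
  have h0Ω : (0 : ℂ) ∈ χ '' UD := (hFRB s U W x χ hF).2.2.2.2.2.2.2.2.1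
  have hv0 : v ≠ 0 := by
    intro h
    rw [h, norm_zero] at hv
    exact one_ne_zero hv.symm
  have hvi : ‖v⁻¹‖ = 1 := by rw [norm_inv, hv, inv_one]
  obtain ⟨u₀, hu₀, hu₀e⟩ := id hζ₀
  obtain ⟨u₁, hu₁, hu₁e⟩ := id hζ₀'
  -- the lifts in the limit domain
  have hy : v⁻¹ * u₀ ∈ UD := BLL_mem' (by rw [norm_mul, hvi, one_mul]; exact BLL_mem hu₀)
  have hyv : rm (χ '' UD) 0 (v⁻¹ * u₀) = ζ₀ := by
    rw [hrm _ hy, ← mul_assoc, mul_inv_cancel₀ hv0, one_mul]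
    exact hu₀e
  have hQ := hQLC s (χ '' UD) hTD 0 h0Ω ζ₀' hζ₀' (v⁻¹ * u₀) hy
  rw [hyv] at hQ
  obtain ⟨e, he⟩ := hQ
  obtain ⟨F, hFl, _, hFs⟩ := ((hQFN s (χ '' UD) hF.s0 hTD).1 ζ₀ hζ₀ ζ₀' hζ₀' hne).2.2.2.2.2.2.2 (ε / 2) (by linarith)
  set w : {y // y ∈ F} → ℂ := fun i => v * ((e.symm ⟨i.1, hFl i.1 i.2⟩ : lf (χ '' UD) 0 ζ₀') : ℂ) with hw
  have hwU : ∀ i, w i ∈ UD := fun i =>
    BLL_mem' (by rw [hw]; simp only [norm_mul, hv, one_mul]; exact BLL_mem (e.symm ⟨i.1, hFl i.1 i.2⟩).2.1)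
  have hwχ : ∀ i, χ (w i) = ζ₀' := by
    intro i
    have h1 := (e.symm ⟨i.1, hFl i.1 i.2⟩).2
    have h2 := hrm _ h1.1
    rw [h1.2] at h2
    exact h2.symm
  have hwn : ∀ i, ‖T (w i) u₀‖ = ‖i.1‖ := by
    intro i
    have h1 := he (e.symm ⟨i.1, hFl i.1 i.2⟩)
    rw [Equiv.apply_symm_apply] at h1
    have h2 := BLL_rot hv ((e.symm ⟨i.1, hFl i.1 i.2⟩ : lf (χ '' UD) 0 ζ₀') : ℂ) (v⁻¹ * u₀)
    rw [← mul_assoc v v⁻¹, mul_inv_cancel₀ hv0, one_mul] at h2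
    exact h2.trans h1.symm
  have hwinj : Function.Injective w := by
    intro i i' hii
    have h1 := mul_left_cancel₀ hv0 hii
    have h2 := e.symm.injective (Subtype.ext h1)
    have h3 := congrArg Subtype.val h2
    exact Subtype.ext h3
  have hwne : ∀ i, w i ≠ u₀ := by
    intro i h
    apply hne
    rw [← hu₀e, ← hwχ i, h]
  have hFsum : gr (χ '' UD) ζ₀ ζ₀' ≤ ∑ i : {y // y ∈ F}, Real.log (1 / ‖T (w i) u₀‖) + ε / 2 := by
    have h1 : ∑ y ∈ F, Real.log (1 / ‖y‖) = ∑ i : {y // y ∈ F}, Real.log (1 / ‖T (w i) u₀‖) := by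
      rw [← Finset.sum_coe_sort F (fun y => Real.log (1 / ‖y‖))]
      exact Finset.sum_congr rfl fun i _ => by rw [hwn i]
    rw [← h1]
    exact hFs
  -- lifts of the moving points
  obtain ⟨μ, hμ, hμe⟩ := hLMP s U W x χ hF u₀ hu₀ ζ (by rw [hu₀e]; exact hζ)
  obtain ⟨ν, _, hνe⟩ := hLMP s U W x χ hF u₁ hu₁ ζ' (by rw [hu₁e]; exact hζ')
  have hL : ∀ i, ∃ om : ℕ → ℂ, Tendsto om U (𝓝 (w i)) ∧
      ∀ᶠ j in (U : Filter ℕ), om j ∈ UD ∧ CN (W j) (x j) (om j) = ζ' j := fun i =>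
    hLMP s U W x χ hF (w i) (hwU i) ζ' (by rw [hwχ i]; exact hζ')
  choose om hom home using hL
  have hA : ∀ᶠ j in (U : Filter ℕ), ∀ i, om i j ∈ UD ∧ CN (W j) (x j) (om i j) = ζ' j := eventually_all.2 home
  have hB : ∀ᶠ j in (U : Filter ℕ), ∀ i i', i ≠ i' → om i j ≠ om i' j := by
    refine eventually_all.2 fun i => eventually_all.2 fun i' => ?_
    by_cases hii : i = i'
    · exact Eventually.of_forall fun j h => absurd hii h
    · exact (BLL_evne (hom i) (hom i') (fun h => hii (hwinj h))).mono fun j h _ => h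
  have hC : ∀ᶠ j in (U : Filter ℕ), ζ j ≠ ζ' j := BLL_evne hζ hζ' hne
  have hD : ∀ᶠ j in (U : Filter ℕ), ∑ i : {y // y ∈ F}, Real.log (1 / ‖T (w i) u₀‖) - ε / 2 <
      ∑ i : {y // y ∈ F}, Real.log (1 / ‖T (om i j) (μ j)‖) := by
    have h1 : Tendsto (fun j => ∑ i : {y // y ∈ F}, Real.log (1 / ‖T (om i j) (μ j)‖)) U
        (𝓝 (∑ i : {y // y ∈ F}, Real.log (1 / ‖T (w i) u₀‖))) :=
      tendsto_finsetSum _ fun i _ => BLL_lim (hwU i) hu₀ (hwne i) (hom i) hμ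
    exact h1.eventually_const_lt (by linarith)
  filter_upwards [hF.td, hμe, hνe, hA, hB, hC, hD] with j ⟨hTj, hxj⟩ ⟨hμU, hμζ⟩ ⟨hνU, hνζ⟩ hAj hBj hCj hDj
  obtain ⟨hUC, hcr, _⟩ := hQNU s (W j) hTj (x j) hxj
  have hcr0 : ((cr (W j) (x j) : ℝ) : ℂ) ≠ 0 := by exact_mod_cast hcr.ne'
  have hPT : ∀ u : ℂ, PT (W j) (x j) (CN (W j) (x j) u) = rm (W j) (x j) u := by
    intro u
    unfold PT CN
    rw [mul_div_cancel₀ _ hcr0]
    ring
  have ha : rm (W j) (x j) (μ j) = PT (W j) (x j) (ζ j) := by rw [← hPT, hμζ]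
  have hb : rm (W j) (x j) (ν j) = PT (W j) (x j) (ζ' j) := by rw [← hPT, hνζ]
  have haW : PT (W j) (x j) (ζ j) ∈ W j := by rw [← ha]; exact hUC.map hμU
  have hbW : PT (W j) (x j) (ζ' j) ∈ W j := by rw [← hb]; exact hUC.map hνU
  have hab : PT (W j) (x j) (ζ j) ≠ PT (W j) (x j) (ζ' j) := by
    intro h
    unfold PT at h
    exact hCj (mul_left_cancel₀ hcr0 (add_left_cancel h))
  have hmem : ∀ i, om i j ∈ lf (W j) (x j) (PT (W j) (x j) (ζ' j)) := fun i =>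
    ⟨(hAj i).1, by rw [← hPT, (hAj i).2]⟩
  have hQj := hQLC s (W j) hTj (x j) hxj (PT (W j) (x j) (ζ' j)) hbW (μ j) hμU
  rw [ha] at hQj
  obtain ⟨e', he'⟩ := hQj
  set g : {y // y ∈ F} → ℂ := fun i => ((e' ⟨om i j, hmem i⟩ :
    lf (W j) (PT (W j) (x j) (ζ j)) (PT (W j) (x j) (ζ' j))) : ℂ) with hg
  have hginj : Function.Injective g := by
    intro i i' hii
    by_contra hne'
    have h2 := e'.injective (Subtype.ext hii)
    have h3 : om i j = om i' j := congrArg Subtype.val h2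
    exact hBj i i' hne' h3
  have hgn : ∀ i, ‖g i‖ = ‖T (om i j) (μ j)‖ := fun i => he' ⟨om i j, hmem i⟩
  have hsum := (((hQFN s (W j) hF.s0 hTj).1 _ haW _ hbW hab).2.2.2.2.2.2.1 (Finset.univ.image g) (by
    intro y hy
    obtain ⟨i, _, rfl⟩ := Finset.mem_image.1 hy
    exact (e' ⟨om i j, hmem i⟩).2)).2
  rw [Finset.sum_image (fun i _ i' _ h => hginj h)] at hsum
  have hs2 : ∑ i : {y // y ∈ F}, Real.log (1 / ‖g i‖) = ∑ i : {y // y ∈ F}, Real.log (1 / ‖T (om i j) (μ j)‖) :=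
    Finset.sum_congr rfl fun i _ => by rw [hgn i]
  rw [hs2] at hsum
  linarith

end CVL
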